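import Pool.Agent.helper88.OF.Defs
import Pool.Agent.helper30.QR.XB
import Pool.Agent.helper54.QR.MS
import Pool.Agent.helper46.OF.SC

/-! # Project OF, module C1: small norms, order prime to 6 -/

namespace Pool.Agent.helper88.OF

open Finset Pool.Agent.helper76.LP

/-- an order 4 of one `Gam D i` forces order at least 5 of the others -/
lemma C1_five {D i j : ℕ} [NeZero D] (h6 : Nat.Coprime D 6) (hi : i ∈ D.primeFactors)
    (hj : j ∈ D.primeFactors) (hij : i ≠ j) (h4 : Nat.card (Gam D i) = 4) :
    5 ≤ Nat.card (Gam D j) := by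
  have hip := Nat.prime_of_mem_primeFactors hi
  have hjp := Nat.prime_of_mem_primeFactors hj
  rw [card_Gam D i hip (Nat.dvd_of_mem_primeFactors hi)] at h4
  rw [card_Gam D j hjp (Nat.dvd_of_mem_primeFactors hj)]
  have hi5 := XB_five h6 hi
  have hj5 := XB_five h6 hj
  have hi' : i = 5 := by
    split_ifs at h4 <;> omega
  have hj6 : j ≠ 6 := by
    rintro rfl
    exact absurd hjp (by norm_num)
  split_ifs <;> omega

/-- the support of an odd function on a commutative group has even cardinality -/
lemma C1_even {G : Type*} [Fintype G] [InvolutiveNeg G] (f : G → ℤ)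
    (hodd : ∀ x, f (-x) = - f x) : Even (univ.filter (fun x => f x ≠ 0)).card := by
  classical
  have h1 : ∑ x ∈ univ.filter (fun x => f x ≠ 0), (1 : ZMod 2) = 0 := by
    refine Finset.sum_involution (fun x _ => -x) ?_ ?_ ?_ ?_
    · intro x _
      decide
    · intro x hx _ h
      rw [mem_filter] at hx
      have h2 := hodd x
      rw [h] at h2
      exact hx.2 (by omega)
    · intro x hx
      rw [mem_filter] at hx ⊢
      refine ⟨mem_univ _, ?_⟩
      rw [hodd]
      exact neg_ne_zero.2 hx.2
    · intro x _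
      exact neg_neg x
  rw [sum_const, nsmul_eq_mul, mul_one, ZMod.natCast_eq_zero_iff] at h1
  exact even_iff_two_dvd.2 h1

theorem small_zero (D : ℕ) [NeZero D] (h6 : Nat.Coprime D 6) (f : (ZMod D)ˣ → ℤ)
    (hodd : ∀ x, f (-x) = - f x)
    (hf : ∀ L : List ℕ, L.Nodup → L.toFinset = D.primeFactors → MDv (Gam D) L f)
    (h8 : ∑ x, |f x| < 8) (x : (ZMod D)ˣ) : f x = 0 := by
  classical
  by_contra hx
  set L : List ℕ := D.primeFactors.toList with hL
  have hmem : ∀ p, p ∈ L ↔ p ∈ D.primeFactors := by
    intro p; rw [hL, Finset.mem_toList]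
  have hnd : L.Nodup := Finset.nodup_toList _
  have htf : L.toFinset = D.primeFactors := Finset.toList_toFinset _
  have hI : Indep (Gam D) L := indep_Gam D _ hnd (fun p hp => (hmem p).1 hp)
  have hMD := hf L hnd htf
  have h7 : (univ.filter (fun x => f x ≠ 0)).card ≤ 7 := by
    have h1 : ((univ.filter (fun x => f x ≠ 0)).card : ℤ) ≤ ∑ x, |f x| := by
      rw [card_eq_sum_ones, Nat.cast_sum]
      refine le_trans (sum_le_sum (g := fun x => |f x|) ?_)
        (sum_le_sum_of_subset_of_nonneg (subset_univ _) fun x _ _ => abs_nonneg _)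
      intro x hx
      rw [mem_filter] at hx
      simpa using Int.one_le_abs hx.2
    omega
  by_cases hm : (-1 : (ZMod D)ˣ) ∈ Pl (Gam D) L
  · have hev := C1_even f hodd
    have hS := XB_sl0 (Gam D) L f x
    have hS6 : Sl (Gam D) L f x ≤ 6 := by
      obtain ⟨k, hk⟩ := hev
      omega
    obtain ⟨i, hi, _, hw⟩ := single_coset (Gam D) L hnd hI
      (fun i hi => XB_card D i h6 ((hmem i).1 hi))
      (fun i hi j hj hij h4 => C1_five h6 ((hmem i).1 hi) ((hmem j).1 hj) hij h4)
      f hMD x hx hS6
    have h1 := hw (-1) hm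
    rw [neg_one_mul, hodd] at h1
    by_cases hG : (-1 : (ZMod D)ˣ) ∈ Gam D i
    · have := h1.1 hG
      omega
    · have := h1.2 hG
      omega
  · have hs := XB_sl (Gam D) L f (-1) hm (by
      intro y; rw [neg_one_mul, hodd]) x
    obtain ⟨i, hi, hc⟩ := min_support (Gam D) L hI f hMD x hx
    have h4 := XB_card D i h6 ((hmem i).1 hi)
    omega

end Pool.Agent.helper88.OF
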