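import Pool.Agent.helper86.OF.SpecB

/-!
# Project of: (MP_c62920_co), module BL3
-/

open scoped BigOperators

namespace Pool.Agent.OF

noncomputable section

open Classical

theorem BL3_dg {V : Type} [Fintype V] (H G : SimpleGraph V)
    (hHG : ∀ a b, H.Adj a b → G.Adj a b) (S : Finset V) (x : V) : dgs H S x ≤ dgs G S x := by
  unfold dgs
  refine Finset.card_le_card ?_
  intro y hy
  rw [Finset.mem_filter] at hy ⊢
  exact ⟨hy.1, hHG _ _ hy.2⟩

theorem BL3_ep {V : Type} [Fintype V] (H G : SimpleGraph V)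
    (hHG : ∀ a b, H.Adj a b → G.Adj a b) (S T : Finset V) : ep H S T ≤ ep G S T :=
  Finset.sum_le_sum fun x _ => BL3_dg H G hHG T x

theorem BL3_out {V : Type} [Fintype V] (H : SimpleGraph V) (X : Finset V) (D : ℕ)
    (c : Sym2 V → ℕ) :
    2 * ((Finset.range D).filter fun γ => ∃ v w, H.Adj v w ∧ v ∉ X ∧ w ∉ X ∧
      c s(v, w) = γ).card ≤ ep H Xᶜ Xᶜ := by
  set C := (Finset.range D).filter fun γ => ∃ v w, H.Adj v w ∧ v ∉ X ∧ w ∉ X ∧ c s(v, w) = γ
    with hC
  set E : Finset (Σ _ : V, V) := Xᶜ.sigma fun v => Xᶜ.filter fun w => H.Adj v w with hE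
  have hEc : E.card = ep H Xᶜ Xᶜ := by
    rw [hE, Finset.card_sigma]
    rfl
  rw [← hEc]
  set E' := E.filter fun e => c s(e.1, e.2) ∈ C with hE'
  have h1 : E'.card ≤ E.card := Finset.card_filter_le _ _
  refine le_trans ?_ h1
  have hmaps : Set.MapsTo (fun e : (Σ _ : V, V) => c s(e.1, e.2)) (E' : Set (Σ _ : V, V))
      (C : Set ℕ) := by
    intro e he
    have he' : e ∈ E' := he
    rw [hE', Finset.mem_filter] at he'
    exact he'.2
  rw [Finset.card_eq_sum_card_fiberwise hmaps, mul_comm, ← smul_eq_mul, ← Finset.sum_const]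
  refine Finset.sum_le_sum fun γ hγ => ?_
  obtain ⟨-, v, w, hvw, hv, hw, hcol⟩ := Finset.mem_filter.1 hγ
  have hmem : ∀ a b : V, H.Adj a b → a ∉ X → b ∉ X → c s(a, b) = γ →
      (⟨a, b⟩ : Σ _ : V, V) ∈ E'.filter fun e => c s(e.1, e.2) = γ := by
    intro a b hab ha hb hcab
    rw [Finset.mem_filter, hE', Finset.mem_filter, hE, Finset.mem_sigma, Finset.mem_filter,
      Finset.mem_compl, Finset.mem_compl]
    refine ⟨⟨⟨ha, hb, hab⟩, ?_⟩, hcab⟩
    show c s(a, b) ∈ C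
    rw [hcab]
    exact hγ
  have hsub : ({⟨v, w⟩, ⟨w, v⟩} : Finset (Σ _ : V, V)) ⊆
      E'.filter fun e => c s(e.1, e.2) = γ := by
    intro e he
    rw [Finset.mem_insert, Finset.mem_singleton] at he
    rcases he with rfl | rfl
    · exact hmem v w hvw hv hw hcol
    · exact hmem w v hvw.symm hw hv (by rw [Sym2.eq_swap]; exact hcol)
  have h2 := Finset.card_le_card hsub
  rw [Finset.card_pair] at h2
  · exact h2
  · intro h
    have h3 : v = w := congrArg Sigma.fst h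
    rw [h3] at hvw
    exact H.loopless.irrefl w hvw

theorem BL3_inj {V : Type} [Fintype V] (H : SimpleGraph V) (X : Finset V) (D : ℕ)
    (c : Sym2 V → ℕ) (hc : PEC H D c) (α γ : ℕ) (X' : Finset V)
    (h : ∀ x ∈ X', ∃ z w, H.Adj x z ∧ c s(x, z) = α ∧ H.Adj z w ∧ c s(z, w) = γ ∧ w ∈ X) :
    X'.card ≤ nX H c X γ := by
  choose! z w h1 h2 h3 h4 h5 using h
  unfold nX
  refine Finset.card_le_card_of_injOn w ?_ ?_
  · intro x hx
    have hx' : x ∈ X' := hx
    rw [Finset.coe_filter]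
    refine ⟨h5 x hx', z x, (h3 x hx').symm, ?_⟩
    rw [Sym2.eq_swap]
    exact h4 x hx'
  · intro x hx x' hx' hw
    have hx1 : x ∈ X' := hx
    have hx2 : x' ∈ X' := hx'
    have hw' : w x = w x' := hw
    have hz : z x = z x' := by
      refine hc.2 (w x) (z x) (z x') (h3 x hx1).symm ?_ ?_
      · rw [hw']; exact (h3 x' hx2).symm
      · rw [Sym2.eq_swap, h4 x hx1, hw', Sym2.eq_swap, h4 x' hx2]
    refine hc.2 (z x) x x' (h1 x hx1).symm ?_ ?_
    · rw [hz]; exact (h1 x' hx2).symm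
    · rw [Sym2.eq_swap, h2 x hx1, hz, Sym2.eq_swap, h2 x' hx2]

theorem BL3_pres (hSCN : SCN_stmt) {V : Type} [Fintype V] (H : SimpleGraph V) (D : ℕ)
    (c : Sym2 V → ℕ) (hc : PEC H D c) (v : V) :
    ((Finset.range D).filter fun i => ¬ has H c v i).card + dg H v = D := by
  have h1 := hSCN V H D c hc v
  have h2 := Finset.card_filter_add_card_filter_not (s := Finset.range D)
    (fun i => has H c v i)
  rw [h1, Finset.card_range] at h2
  omega

/-- the general form, with `H` in place of `Kd K x0 y0` -/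
theorem BL3_gen (hSCN : SCN_stmt) (hBL0 : BL0_stmt) {V : Type} [Fintype V] (H : SimpleGraph V)
    (X : Finset V) (D : ℕ) (x0 y0 : V) (r B : ℝ) (c : Sym2 V → ℕ) (α : ℕ)
    (ind : ∀ v ∈ X, ∀ w ∈ X, ¬ H.Adj v w) (hx0 : x0 ∈ X) (hc : PEC H D c)
    (hdegy : (dg H y0 : ℝ) + 4 * r ≤ D)
    (hdegx : ∀ x ∈ X, (dg H x : ℝ) ≤ 11 / 10 * r) (hyy : (ep H Xᶜ Xᶜ : ℝ) ≤ r / 10)
    (htot : (ep H X Xᶜ : ℝ) ≤ B * r) (hB : 1 ≤ B) (hr : 0 < r) (Γ : Finset ℕ)
    (hΓ : ∀ γ, γ ∈ Γ ↔ γ ∈ Finset.range D ∧ ¬ has H c x0 γ ∧ ¬ has H c y0 γ ∧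
      ∀ v w, H.Adj v w → v ∉ X → w ∉ X → c s(v, w) ≠ γ)
    (hBL2 : ∀ γ ∈ Γ, ∀ x ∈ X, ∀ z, H.Adj x z → c s(x, z) = α → z ≠ y0 → ¬ has H c x γ →
      has H c z γ) :
    285 / 100 * r ≤ Γ.card ∧ (nX H c X α : ℝ) ≤ 2 * B := by
  have hsize : 285 / 100 * r ≤ Γ.card := by
    have h1 := BL3_pres hSCN H D c hc y0
    have h2 := hSCN V H D c hc x0
    have h3 := BL3_out H X D c
    have hsub : ((Finset.range D).filter fun i => ¬ has H c y0 i) ⊆
        Γ ∪ (((Finset.range D).filter fun i => has H c x0 i) ∪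
          ((Finset.range D).filter fun γ => ∃ v w, H.Adj v w ∧ v ∉ X ∧ w ∉ X ∧
            c s(v, w) = γ)) := by
      intro i hi
      obtain ⟨hi1, hi2⟩ := Finset.mem_filter.1 hi
      rw [Finset.mem_union, Finset.mem_union]
      by_cases hix : has H c x0 i
      · exact Or.inr (Or.inl (Finset.mem_filter.2 ⟨hi1, hix⟩))
      by_cases hio : ∃ v w, H.Adj v w ∧ v ∉ X ∧ w ∉ X ∧ c s(v, w) = i
      · exact Or.inr (Or.inr (Finset.mem_filter.2 ⟨hi1, hio⟩))
      · left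
        rw [hΓ]
        refine ⟨hi1, hix, hi2, fun v w hvw hv hw he => hio ⟨v, w, hvw, hv, hw, he⟩⟩
    have h4 := (Finset.card_le_card hsub).trans ((Finset.card_union_le _ _).trans
      (Nat.add_le_add_left (Finset.card_union_le _ _) _))
    rw [h2] at h4
    have h4' : (((Finset.range D).filter fun i => ¬ has H c y0 i).card : ℝ) ≤
        Γ.card + (dg H x0 + ((Finset.range D).filter fun γ => ∃ v w, H.Adj v w ∧ v ∉ X ∧ w ∉ X ∧
            c s(v, w) = γ).card) := by exact_mod_cast h4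
    have h1' : (((Finset.range D).filter fun i => ¬ has H c y0 i).card : ℝ) + dg H y0 = D := by
      exact_mod_cast h1
    have h3' : 2 * (((Finset.range D).filter fun γ => ∃ v w, H.Adj v w ∧ v ∉ X ∧ w ∉ X ∧
      c s(v, w) = γ).card : ℝ) ≤ ep H Xᶜ Xᶜ := by exact_mod_cast h3
    have h5 := hdegx x0 hx0
    linarith
  refine ⟨hsize, ?_⟩
  set Xα := X.filter fun x => has H c x α with hXα
  set X' := Xα.filter fun x => ¬ (H.Adj x y0 ∧ c s(x, y0) = α) with hX'
  have hone : (Xα.filter fun x => (H.Adj x y0 ∧ c s(x, y0) = α)).card ≤ 1 := by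
    rw [Finset.card_le_one]
    intro a ha b hb
    obtain ⟨-, ha1, ha2⟩ := Finset.mem_filter.1 ha
    obtain ⟨-, hb1, hb2⟩ := Finset.mem_filter.1 hb
    refine hc.2 y0 a b ha1.symm hb1.symm ?_
    rw [Sym2.eq_swap, ha2, Sym2.eq_swap, hb2]
  have hcardα : nX H c X α ≤ X'.card + 1 := by
    have h3 : nX H c X α = Xα.card := rfl
    have h4 : Xα ⊆ X' ∪ (Xα.filter fun x => (H.Adj x y0 ∧ c s(x, y0) = α)) := by
      intro x hx
      rw [Finset.mem_union]
      by_cases h : H.Adj x y0 ∧ c s(x, y0) = α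
      · exact Or.inr (Finset.mem_filter.2 ⟨hx, h⟩)
      · exact Or.inl (Finset.mem_filter.2 ⟨hx, h⟩)
    have h5 := (Finset.card_le_card h4).trans (Finset.card_union_le _ _)
    rw [h3]
    omega
  -- for every colour of `Γ`
  have hγ : ∀ γ ∈ Γ, (X'.filter fun x => ¬ has H c x γ).card ≤ nX H c X γ := by
    intro γ hγΓ
    refine BL3_inj H X D c hc α γ _ ?_
    intro x hx
    obtain ⟨hx1, hx2⟩ := Finset.mem_filter.1 hx
    obtain ⟨hx3, hx4⟩ := Finset.mem_filter.1 hx1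
    obtain ⟨hxX, z, hxz, hcz⟩ := Finset.mem_filter.1 hx3
    have hzy : z ≠ y0 := by
      rintro rfl
      exact hx4 ⟨hxz, hcz⟩
    obtain ⟨w, hzw, hcw⟩ := hBL2 γ hγΓ x hxX z hxz hcz hzy hx2
    have hzX : z ∉ X := fun hz => ind x hxX z hz hxz
    refine ⟨z, w, hxz, hcz, hzw, hcw, ?_⟩
    by_contra hwX
    rw [hΓ] at hγΓ
    exact hγΓ.2.2.2 z w hzw hzX hwX hcw
  have hsum1 : ∑ γ ∈ Γ, (X'.filter fun x => ¬ has H c x γ).card ≤ ep H X Xᶜ := by
    refine (Finset.sum_le_sum hγ).trans ?_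
    rw [← hBL0 V H X D c ind hc]
    refine Finset.sum_le_sum_of_subset ?_
    intro γ hγ'
    exact ((hΓ γ).1 hγ').1
  have hsum2 : ∑ γ ∈ Γ, (X'.filter fun x => ¬ has H c x γ).card =
      ∑ x ∈ X', (Γ.filter fun γ => ¬ has H c x γ).card :=
    Finset.sum_card_bipartiteAbove_eq_sum_card_bipartiteBelow (fun γ x => ¬ has H c x γ)
  have hlow : ∀ x ∈ X', 175 / 100 * r ≤ ((Γ.filter fun γ => ¬ has H c x γ).card : ℝ) := by
    intro x hx
    have hxX : x ∈ X := (Finset.mem_filter.1 (Finset.mem_filter.1 hx).1).1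
    have h2 := Finset.card_filter_add_card_filter_not (s := Γ) (fun γ => has H c x γ)
    have h3 : (Γ.filter fun γ => has H c x γ).card ≤ dg H x := by
      rw [← hSCN V H D c hc x]
      refine Finset.card_le_card ?_
      intro γ hγ'
      obtain ⟨h4, h5⟩ := Finset.mem_filter.1 hγ'
      exact Finset.mem_filter.2 ⟨((hΓ γ).1 h4).1, h5⟩
    have h4 := hdegx x hxX
    have h2' : ((Γ.filter fun γ => has H c x γ).card : ℝ) +
        ((Γ.filter fun γ => ¬ has H c x γ).card : ℝ) = Γ.card := by exact_mod_cast h2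
    have h3' : ((Γ.filter fun γ => has H c x γ).card : ℝ) ≤ dg H x := by exact_mod_cast h3
    linarith
  have hsum3 : (X'.card : ℝ) * (175 / 100 * r) ≤ ep H X Xᶜ := by
    have h2 : ((∑ x ∈ X', (Γ.filter fun γ => ¬ has H c x γ).card : ℕ) : ℝ) ≤ ep H X Xᶜ := by
      rw [← hsum2]
      exact_mod_cast hsum1
    refine le_trans ?_ h2
    push_cast
    rw [← nsmul_eq_mul, ← Finset.sum_const]
    exact Finset.sum_le_sum hlow
  have h6 : (X'.card : ℝ) * (175 / 100) ≤ B := by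
    have h7 : (X'.card : ℝ) * (175 / 100) * r ≤ B * r := by
      have := hsum3.trans htot
      linarith
    exact le_of_mul_le_mul_right h7 hr
  have h8 : (nX H c X α : ℝ) ≤ X'.card + 1 := by exact_mod_cast hcardα
  linarith

/-- **BL3** -/
theorem BL3 (hSCN : SCN_stmt) (hBL0 : BL0_stmt) (hBL1 : BL1_stmt) (hBL2 : BL2_stmt) :
    BL3_stmt := by
  intro V _ K X D p x0 y0 r B c α hyp hng hco
  have hKd : ∀ a b, (Kd K x0 y0).Adj a b → K.Adj a b := by
    intro a b hab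
    rw [SimpleGraph.deleteEdges_adj] at hab
    exact hab.1
  have hr : 0 < r := by
    have h1 := hyp.rB
    have h2 := hyp.B1
    nlinarith
  have hα : α ∉ Gam K X D x0 y0 c := by
    intro h
    have h1 := (hBL1 V K X D p x0 y0 r B c α hyp hng hco).1
    exact (Finset.mem_filter.1 h).2.2.1 h1
  have hdg : ∀ v, (dg (Kd K x0 y0) v : ℝ) ≤ dg K v := by
    intro v
    have := BL3_dg (Kd K x0 y0) K hKd Finset.univ v
    exact_mod_cast this
  have hep : ∀ S T, (ep (Kd K x0 y0) S T : ℝ) ≤ ep K S T := by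
    intro S T
    have := BL3_ep (Kd K x0 y0) K hKd S T
    exact_mod_cast this
  refine ⟨hα, ?_⟩
  refine BL3_gen hSCN hBL0 (Kd K x0 y0) X D x0 y0 r B c α
    (fun v hv w hw h => hyp.ind v hv w hw (hKd v w h)) hyp.x0X hco.pec ?_ ?_ ?_ ?_ hyp.B1 hr
    (Gam K X D x0 y0 c) (fun γ => ?_) ?_
  · have := hyp.degy
    have := hdg y0
    linarith
  · intro x hx
    exact (hdg x).trans (hyp.degx x hx)
  · exact (hep _ _).trans hyp.yy
  · exact (hep _ _).trans hyp.tot
  · unfold Gam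
    rw [Finset.mem_filter]
  · intro γ hγ x hx z hxz hcz hz hmiss
    obtain ⟨h1, h2, h3, h4⟩ := Finset.mem_filter.1 hγ
    refine hBL2 V K X D p x0 y0 r B c α hyp hng hco γ (Finset.mem_range.1 h1) ?_ h2 h3 x hx z hxz
      hcz hz hmiss
    rintro rfl
    exact hα hγ

end

end Pool.Agent.OF
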