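import Pool.Agent.helper86.OF.SpecL

/-!
# Project of: (MP_c62920_co), module KON: König's edge colouring theorem
-/

open scoped BigOperators

namespace Pool.Agent.OF

noncomputable section

open Classical

/-- adding an edge whose colour is missing at both ends -/
theorem KON_add {V : Type} (G : SimpleGraph V) (D : ℕ) (c : Sym2 V → ℕ) (v w : V) (j : ℕ)
    (hj : j < D) (hc : PEC (G.deleteEdges {s(v, w)}) D c)
    (hv : ¬ has (G.deleteEdges {s(v, w)}) c v j) (hw : ¬ has (G.deleteEdges {s(v, w)}) c w j) :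
    EC G D := by
  refine ⟨fun e => if e = s(v, w) then j else c e, ?_, ?_⟩
  · intro a b hab
    show (if s(a, b) = s(v, w) then j else c s(a, b)) < D
    split_ifs with h
    · exact hj
    · exact hc.1 a b (by rw [SimpleGraph.deleteEdges_adj]; exact ⟨hab, fun h' => h h'⟩)
  · have key : ∀ a b b' : V, G.Adj a b → G.Adj a b' → s(a, b) = s(v, w) → s(a, b') ≠ s(v, w) →
        c s(a, b') ≠ j := by
      intro a b b' _ hab' h h' he
      have hadj : (G.deleteEdges {s(v, w)}).Adj a b' := by
        rw [SimpleGraph.deleteEdges_adj]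
        exact ⟨hab', fun h'' => h' h''⟩
      rw [Sym2.eq_iff] at h
      rcases h with ⟨rfl, rfl⟩ | ⟨rfl, rfl⟩
      · exact hv ⟨b', hadj, he⟩
      · exact hw ⟨b', hadj, he⟩
    intro a b b' hab hab' h
    have h0 : (if s(a, b) = s(v, w) then j else c s(a, b)) =
      (if s(a, b') = s(v, w) then j else c s(a, b')) := h
    by_cases h1 : s(a, b) = s(v, w)
    · by_cases h2 : s(a, b') = s(v, w)
      · have h3 : s(a, b) = s(a, b') := h1.trans h2.symm
        rw [Sym2.eq_iff] at h3
        rcases h3 with ⟨_, h3⟩ | ⟨h3, h4⟩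
        · exact h3
        · rw [← h3] at hab'
          exact absurd hab' (G.loopless.irrefl a)
      · rw [if_pos h1, if_neg h2] at h0
        exact absurd h0.symm (key a b b' hab hab' h1 h2)
    · by_cases h2 : s(a, b') = s(v, w)
      · rw [if_neg h1, if_pos h2] at h0
        exact absurd h0 (key a b' b hab' hab h2 h1)
      · rw [if_neg h1, if_neg h2] at h0
        exact hc.2 a b b' (by rw [SimpleGraph.deleteEdges_adj]; exact ⟨hab, fun h' => h1 h'⟩)
          (by rw [SimpleGraph.deleteEdges_adj]; exact ⟨hab', fun h' => h2 h'⟩) h0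

/-- in a closed set both sides of a bipartite graph have the same number of vertices at which
the colour is present -/
theorem KON_cnt (hPTN : PTN_stmt) {V : Type} [Fintype V] (G : SimpleGraph V) (A : Finset V)
    (hbip : ∀ v w, G.Adj v w → ¬ (v ∈ A ↔ w ∈ A)) (D : ℕ) (c : Sym2 V → ℕ) (hc : PEC G D c)
    (i : ℕ) (S : Finset V) (hS : ∀ v w, G.Adj v w → c s(v, w) = i → (v ∈ S ↔ w ∈ S)) :
    (S.filter fun x => x ∈ A ∧ has G c x i).card = (S.filter fun x => x ∉ A ∧ has G c x i).card := by
  obtain ⟨⟨hinv, hadj⟩, hcol, hhas⟩ := hPTN V G D c hc i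
  have hmap : ∀ x, has G c x i → G.Adj x (ptn G c i x) ∧ c s(x, ptn G c i x) = i ∧
      has G c (ptn G c i x) i ∧ (x ∈ S → ptn G c i x ∈ S) := by
    intro x hx
    have h1 : ptn G c i x ≠ x := (hhas x).2 hx
    have h2 : G.Adj x (ptn G c i x) := hadj x h1
    have h3 : c s(x, ptn G c i x) = i := (hcol x _ h2).1 rfl
    refine ⟨h2, h3, ?_, fun hxS => (hS x _ h2 h3).1 hxS⟩
    refine ⟨x, h2.symm, ?_⟩
    rw [Sym2.eq_swap]
    exact h3
  refine Finset.card_nbij' (ptn G c i) (ptn G c i) ?_ ?_ (fun x _ => hinv x) (fun x _ => hinv x)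
  · intro x hx
    simp only [Finset.coe_filter, Set.mem_ofPred_eq] at hx ⊢
    obtain ⟨hxS, hxA, hxi⟩ := hx
    obtain ⟨h1, h2, h3, h4⟩ := hmap x hxi
    refine ⟨h4 hxS, fun hA => hbip x _ h1 ⟨fun _ => hA, fun _ => hxA⟩, h3⟩
  · intro x hx
    simp only [Finset.coe_filter, Set.mem_ofPred_eq] at hx ⊢
    obtain ⟨hxS, hxA, hxi⟩ := hx
    obtain ⟨h1, h2, h3, h4⟩ := hmap x hxi
    refine ⟨h4 hxS, ?_, h3⟩
    by_contra hA
    exact hbip x _ h1 ⟨fun h => absurd h hxA, fun h => absurd h hA⟩

/-- the extension step -/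
theorem KON_step (hPTN : PTN_stmt) (hKCO : KCO_stmt) (hKSW : KSW_stmt) {V : Type} [Fintype V]
    (G : SimpleGraph V) (A : Finset V) (hbip : ∀ v w, G.Adj v w → ¬ (v ∈ A ↔ w ∈ A)) (D : ℕ)
    (v w : V) (hvA : v ∈ A) (hwA : w ∉ A) (c : Sym2 V → ℕ)
    (hc : PEC (G.deleteEdges {s(v, w)}) D c) (i j : ℕ) (hi : i < D) (hj : j < D)
    (hvi : ¬ has (G.deleteEdges {s(v, w)}) c v i) (hwj : ¬ has (G.deleteEdges {s(v, w)}) c w j) :
    EC G D := by
  set G' := G.deleteEdges {s(v, w)} with hG'
  by_cases hwi : has G' c w i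
  swap
  · exact KON_add G D c v w i hi hc hvi hwi
  by_cases hvj : has G' c v j
  swap
  · exact KON_add G D c v w j hj hc hvj hwj
  have hij : i ≠ j := by
    rintro rfl
    exact hvi hvj
  have hbip' : ∀ v w, G'.Adj v w → ¬ (v ∈ A ↔ w ∈ A) := by
    intro a b hab
    rw [hG', SimpleGraph.deleteEdges_adj] at hab
    exact hbip a b hab.1
  obtain ⟨S, hself, hSeq, hcl, hodd⟩ := hKCO V G' D c i j hc hij
  have hwS : w ∉ S v := by
    intro hwS
    -- the odd vertices of `S v` are `v` and `w`
    have hne : v ≠ w := by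
      rintro rfl
      exact hwA hvA
    have hvmem : v ∈ (S v).filter fun x => ¬ (has G' c x i ↔ has G' c x j) := by
      rw [Finset.mem_filter]
      exact ⟨hself v, fun h => hvi (h.2 hvj)⟩
    have hwmem : w ∈ (S v).filter fun x => ¬ (has G' c x i ↔ has G' c x j) := by
      rw [Finset.mem_filter]
      exact ⟨hwS, fun h => hwj (h.1 hwi)⟩
    have hsub : ({v, w} : Finset V) ⊆ (S v).filter fun x => ¬ (has G' c x i ↔ has G' c x j) := by
      intro x hx
      rw [Finset.mem_insert, Finset.mem_singleton] at hx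
      rcases hx with rfl | rfl
      · exact hvmem
      · exact hwmem
    have hcard : ((S v).filter fun x => ¬ (has G' c x i ↔ has G' c x j)).card = 2 := by
      rcases hodd v with h0 | h2
      · have := Finset.card_pos.2 ⟨v, hvmem⟩
        omega
      · exact h2
    have heq : ({v, w} : Finset V) = (S v).filter fun x => ¬ (has G' c x i ↔ has G' c x j) := by
      refine Finset.eq_of_subset_of_card_le hsub ?_
      rw [hcard, Finset.card_pair hne]
    have hrest : ∀ x ∈ S v, x ≠ v → x ≠ w → (has G' c x i ↔ has G' c x j) := by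
      intro x hx hxv hxw
      by_contra hcon
      have hmem : x ∈ (S v).filter fun x => ¬ (has G' c x i ↔ has G' c x j) := by
        rw [Finset.mem_filter]
        exact ⟨hx, hcon⟩
      rw [← heq, Finset.mem_insert, Finset.mem_singleton] at hmem
      rcases hmem with h | h
      · exact hxv h
      · exact hxw h
    have c1 := KON_cnt hPTN G' A hbip' D c hc i (S v) (fun a b hab h => hcl v a b hab (Or.inl h))
    have c2 := KON_cnt hPTN G' A hbip' D c hc j (S v) (fun a b hab h => hcl v a b hab (Or.inr h))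
    have c3 : ((S v).filter fun x => x ∈ A ∧ has G' c x j).card =
        ((S v).filter fun x => x ∈ A ∧ has G' c x i).card + 1 := by
      have e : ((S v).filter fun x => x ∈ A ∧ has G' c x j) =
          insert v ((S v).filter fun x => x ∈ A ∧ has G' c x i) := by
        ext x
        rw [Finset.mem_insert, Finset.mem_filter, Finset.mem_filter]
        constructor
        · rintro ⟨hx, hxA, hxj⟩
          by_cases hxv : x = v
          · exact Or.inl hxv
          · refine Or.inr ⟨hx, hxA, (hrest x hx hxv ?_).2 hxj⟩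
            rintro rfl
            exact hwA hxA
        · rintro (rfl | ⟨hx, hxA, hxi⟩)
          · exact ⟨hself x, hvA, hvj⟩
          · refine ⟨hx, hxA, (hrest x hx ?_ ?_).1 hxi⟩
            · rintro rfl
              exact hvi hxi
            · rintro rfl
              exact hwA hxA
      rw [e, Finset.card_insert_of_notMem]
      rw [Finset.mem_filter]
      exact fun h => hvi h.2.2
    have c4 : ((S v).filter fun x => x ∉ A ∧ has G' c x i).card =
        ((S v).filter fun x => x ∉ A ∧ has G' c x j).card + 1 := by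
      have e : ((S v).filter fun x => x ∉ A ∧ has G' c x i) =
          insert w ((S v).filter fun x => x ∉ A ∧ has G' c x j) := by
        ext x
        rw [Finset.mem_insert, Finset.mem_filter, Finset.mem_filter]
        constructor
        · rintro ⟨hx, hxA, hxi⟩
          by_cases hxw : x = w
          · exact Or.inl hxw
          · refine Or.inr ⟨hx, hxA, (hrest x hx ?_ hxw).1 hxi⟩
            rintro rfl
            exact hxA hvA
        · rintro (rfl | ⟨hx, hxA, hxj⟩)
          · exact ⟨hwS, hwA, hwi⟩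
          · refine ⟨hx, hxA, (hrest x hx ?_ ?_).2 hxj⟩
            · rintro rfl
              exact hxA hvA
            · rintro rfl
              exact hwj hxj
      rw [e, Finset.card_insert_of_notMem]
      rw [Finset.mem_filter]
      exact fun h => hwj h.2.2
    omega
  obtain ⟨hp, hin, hout, -⟩ := hKSW V G' D c i j (S v) hc hi hj (hcl v)
  refine KON_add G D (ksw c i j (S v)) v w j hj hp ?_ ?_
  · intro h
    exact hvi ((hin v (hself v)).2.1 h)
  · intro h
    exact hwj ((hout w hwS j).1 h)

theorem KON_missing (hSCN : SCN_stmt) {V : Type} [Fintype V] (G : SimpleGraph V) (D : ℕ)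
    (c : Sym2 V → ℕ) (hc : PEC G D c) (v : V) (hv : dg G v < D) :
    ∃ i < D, ¬ has G c v i := by
  by_contra hcon
  push Not at hcon
  have h1 := hSCN V G D c hc v
  rw [Finset.filter_true_of_mem (fun i hi => hcon i (Finset.mem_range.1 hi)),
    Finset.card_range] at h1
  omega

theorem KON_dg_lt' {V : Type} [Fintype V] (H G : SimpleGraph V)
    (hHG : ∀ a b, H.Adj a b → G.Adj a b) (v w : V) (h : G.Adj v w) (h' : ¬ H.Adj v w) :
    dg H v < dg G v := by
  unfold dg dgs
  refine Finset.card_lt_card ?_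
  rw [Finset.ssubset_iff_of_subset]
  · refine ⟨w, ?_, ?_⟩
    · rw [Finset.mem_filter]
      exact ⟨Finset.mem_univ _, h⟩
    · rw [Finset.mem_filter]
      rintro ⟨-, h2⟩
      exact h' h2
  · intro x hx
    rw [Finset.mem_filter] at hx ⊢
    exact ⟨hx.1, hHG _ _ hx.2⟩

theorem KON_dg_le' {V : Type} [Fintype V] (H G : SimpleGraph V)
    (hHG : ∀ a b, H.Adj a b → G.Adj a b) (x : V) : dg H x ≤ dg G x := by
  unfold dg dgs
  refine Finset.card_le_card ?_
  intro y hy
  rw [Finset.mem_filter] at hy ⊢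
  exact ⟨hy.1, hHG _ _ hy.2⟩

theorem KON_dg_lt {V : Type} [Fintype V] (G : SimpleGraph V) (v w : V) (h : G.Adj v w) :
    dg (G.deleteEdges {s(v, w)}) v < dg G v := by
  refine KON_dg_lt' _ G (fun a b hab => ?_) v w h (fun h2 => ?_)
  · rw [SimpleGraph.deleteEdges_adj] at hab
    exact hab.1
  · rw [SimpleGraph.deleteEdges_adj] at h2
    exact h2.2 rfl

theorem KON_dg_le {V : Type} [Fintype V] (G : SimpleGraph V) (v w x : V) :
    dg (G.deleteEdges {s(v, w)}) x ≤ dg G x := by
  refine KON_dg_le' _ G (fun a b hab => ?_) x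
  rw [SimpleGraph.deleteEdges_adj] at hab
  exact hab.1

/-- **KON**: König's edge colouring theorem. -/
theorem KON (hPTN : PTN_stmt) (hSCN : SCN_stmt) (hKCO : KCO_stmt) (hKSW : KSW_stmt) :
    KON_stmt := by
  intro V _ G A D
  induction hn : ∑ x, dg G x using Nat.strong_induction_on generalizing G with
  | _ n ih =>
    intro hbip hD
    by_cases hE : ∃ v w, G.Adj v w
    · obtain ⟨v₀, w₀, h₀⟩ := hE
      -- choose the ends so that `v ∈ A`, `w ∉ A`
      obtain ⟨v, w, hvw, hvA, hwA⟩ : ∃ v w, G.Adj v w ∧ v ∈ A ∧ w ∉ A := by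
        by_cases h1 : v₀ ∈ A
        · refine ⟨v₀, w₀, h₀, h1, fun h2 => hbip v₀ w₀ h₀ ⟨fun _ => h2, fun _ => h1⟩⟩
        · refine ⟨w₀, v₀, h₀.symm, ?_, h1⟩
          by_contra h2
          exact hbip v₀ w₀ h₀ ⟨fun h => absurd h h1, fun h => absurd h h2⟩
      have hlt : ∑ x, dg (G.deleteEdges {s(v, w)}) x < n := by
        rw [← hn]
        exact Finset.sum_lt_sum (fun x _ => KON_dg_le G v w x)
          ⟨v, Finset.mem_univ _, KON_dg_lt G v w hvw⟩
      obtain ⟨c, hc⟩ := ih _ hlt (G.deleteEdges {s(v, w)}) rfl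
        (fun a b hab => hbip a b ((SimpleGraph.deleteEdges_adj.1 hab).1))
        (fun x => (KON_dg_le G v w x).trans (hD x))
      obtain ⟨i, hi, hvi⟩ := KON_missing hSCN _ D c hc v ((KON_dg_lt G v w hvw).trans_le (hD v))
      have hw2 : dg (G.deleteEdges {s(v, w)}) w < dg G w := by
        have := KON_dg_lt G w v hvw.symm
        rw [Sym2.eq_swap] at this
        exact this
      obtain ⟨j, hj, hwj⟩ := KON_missing hSCN _ D c hc w (hw2.trans_le (hD w))
      exact KON_step hPTN hKCO hKSW G A hbip D v w hvA hwA c hc i j hi hj hvi hwj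
    · push Not at hE
      exact ⟨fun _ => 0, fun a b hab => absurd hab (hE a b), fun a b b' hab => absurd hab (hE a b)⟩

end

end Pool.Agent.OF
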